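import Pool.Agent.Lib.MP_b1a3a4_al.MVS.TH.Iface

/-!
# Project MVS, part V: CUBH (13.5)
-/

set_option linter.all false

namespace Pool.Agent.Lib.MP_b1a3a4_al.MVS.TH.H45

open MVS MVS.HO MVS.TH

section

variable {S V : Type} [Group S] [MulAction S V] {χ : S →* Multiplicative ℝ} {h : V → ℝ}
  {lam : V → S}

lemma labs_base (hL : LabS S V χ h lam) : ∃ v₀, lam v₀ = 1 := by
  obtain ⟨v⟩ := hL.ne
  exact ⟨(lam v)⁻¹ • v, by rw [hL.smul, inv_mul_cancel]⟩

/-- heights are determined by `lam` up to a bounded error -/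
lemma labs_height (hL : LabS S V χ h lam) :
    ∃ C : ℝ, 0 ≤ C ∧ ∀ v, |h v - Multiplicative.toAdd (χ (lam v))| ≤ C := by
  have h1 := (hL.fib.image (fun v => |h v|)).bddAbove
  obtain ⟨C, hC⟩ := h1
  have key : ∀ v, |h v - Multiplicative.toAdd (χ (lam v))| ≤ C := by
    intro v
    have h2 : (lam v)⁻¹ • v ∈ {v | lam v = 1} := by
      show lam _ = 1
      rw [hL.smul, inv_mul_cancel]
    have h3 := hC ⟨_, h2, rfl⟩
    simp only [hL.ht, map_inv, toAdd_inv] at h3
    rwa [← sub_eq_add_neg] at h3
  obtain ⟨v⟩ := hL.ne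
  exact ⟨C, (abs_nonneg _).trans (key v), key⟩

end

lemma pushL_id {V : Type} {q : ℕ} (z : Chn V q) : pushL (fun v => v) z = z := by
  induction z using Finsupp.induction_linear with
  | zero => simp
  | add a b ha hb => rw [map_add, ha, hb]
  | single c m => simp

lemma pushL_pushL {V V' V'' : Type} {q : ℕ} (f : V → V') (g : V' → V'') (z : Chn V q) :
    pushL g (pushL f z) = pushL (fun v => g (f v)) z := by
  induction z using Finsupp.induction_linear with
  | zero => simp
  | add a b ha hb => rw [map_add, map_add, map_add, ha, hb]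
  | single c m => simp

theorem cubh (dkdk : DkdkStatement) (cubhs : CubhsStatement) : CubhStatement := by
  obtain ⟨-, -, hpush, hpushd, hprd, -, hpr⟩ := dkdk
  intro S V _ _ χ h lam hL n hχ hFP q hq B hB
  obtain ⟨v₀, hv₀⟩ := labs_base hL
  obtain ⟨C, hC0, hC⟩ := labs_height hL
  obtain ⟨B', D, hB', hD, hS⟩ := cubhs S χ n hχ hFP q hq B hB
  refine ⟨B ∪ B', C + D + |h v₀|, hB.union hB', by positivity, fun t z hz hdz => ?_⟩
  have hz' : SuppIn (fun c => Bd (fun s : S => s) B c ∧
      Up (fun s : S => Multiplicative.toAdd (χ s)) (t - C) c) (pushL lam z) := by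
    refine hz.map (pushL lam) (fun c hc => ?_)
    rw [pushL_single]
    refine suppIn_single ⟨fun x y => hc.1 x y, fun x => ?_⟩ _
    have h1 := hc.2 x
    have h2 := (abs_le.1 (hC (c x))).2
    simp only
    linarith
  have hdz' : SuppIn IsDeg (dK (pushL lam z)) := by
    rw [hpush]; exact hpushd _ _ _ _ _ hdz
  obtain ⟨w, hw1, hw2⟩ := hS (t - C) (pushL lam z) hz' hdz'
  have hio : ∀ s : S, lam (s • v₀) = s := fun s => by rw [hL.smul, hv₀, mul_one]
  refine ⟨pushL (fun s : S => s • v₀) w - prL (fun v => v) (fun v => lam v • v₀) z, ?_, ?_⟩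
  · refine SuppIn.sub ?_ ?_
    · refine hw1.map (pushL (fun s : S => s • v₀)) (fun c hc => ?_)
      rw [pushL_single]
      refine suppIn_single ⟨fun x y => ?_, fun x => ?_⟩ _
      · simp only [hio]
        exact Or.inr (hc.1 x y)
      · have h1 := hc.2 x
        have h2 := neg_abs_le (h v₀)
        simp only [hL.ht]
        linarith
    · refine hz.map (prL (fun v => v) (fun v => lam v • v₀)) (fun c hc => ?_)
      rw [prL_single]
      have hlam : ∀ b, lam (prm (fun v => v) (fun v => lam v • v₀) c b) = lam (c (rem 0 b)) := by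
        intro b
        simp only [prm]
        split_ifs
        · rw [hio]
        · rfl
      refine suppIn_single ⟨fun x y => ?_, fun x => ?_⟩ _
      · rw [hlam, hlam]
        exact Or.inl (hc.1 _ _)
      · have h1 := hc.2 (rem 0 x)
        have h2 := neg_abs_le (h v₀)
        have h3 := (abs_le.1 (hC (c (rem 0 x)))).2
        have h4 := abs_nonneg (h v₀)
        simp only [prm]
        split_ifs
        · rw [hL.ht]; linarith
        · linarith
  · have e : z - dK (pushL (fun s : S => s • v₀) w -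
        prL (fun v => v) (fun v => lam v • v₀) z) =
        pushL (fun s : S => s • v₀) (pushL lam z - dK w) -
          prL (fun v => v) (fun v => lam v • v₀) (dK z) := by
      rw [map_sub, hpush, hpr, map_sub, pushL_pushL, pushL_id]
      abel
    rw [e]
    exact (hpushd _ _ _ _ _ hw2).sub (hprd _ _ _ _ _ _ hdz)

end Pool.Agent.Lib.MP_b1a3a4_al.MVS.TH.H45
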