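import Pool.Agent.Lib.MP_b1a3a4_al.MVS.TH.Iface

/-!
# Project MVS, part V: FINAL (13.34)
-/

set_option linter.all false

namespace Pool.Agent.Lib.MP_b1a3a4_al.MVS.TH.H45

open MVS MVS.HO MVS.TH

lemma rz_mono {V : Type} {K K' : Set (Finset V)} (h : K ⊆ K') : Rz K ⊆ Rz K' := by
  rintro x ⟨h0, σ, hσ, h1, h2⟩
  exact ⟨h0, σ, h hσ, h1, h2⟩

lemma kt_mono {V : Type} (K : Set (Finset V)) (h : V → ℝ) {s t : ℝ} (hst : s ≤ t) :
    kt K h t ⊆ kt K h s := fun σ hσ => ⟨hσ.1, fun v hv => hst.trans (hσ.2 v hv)⟩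

lemma fills_mono {Z : Type} [TopologicalSpace Z] {k : ℕ} {A A' B B' : Set Z} (hA : A' ⊆ A)
    (hB : B ⊆ B') (h : Fills k A B) : Fills k A' B' := by
  intro f hf hfA
  obtain ⟨g, h1, h2, h3⟩ := h f hf (fun x hx => hA (hfA x hx))
  exact ⟨g, h1, fun x => hB (h2 x), h3⟩

theorem finalth (geo : GeoStatement) (ageo : AgeoStatement) (main : MainStatement) :
    FinalThStatement := by
  intro S _ χ n hχ hFP hfp hS2 V _ K h hK hV hconn hcont heq
  obtain ⟨h', lam, C, hG, hsup, hsub⟩ := geo S V χ n K h hK hV hconn hcont heq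
  have hA := ageo S V χ n K h' lam hG
  have hE := main S V (V → ℝ) χ n _ h' lam hA hχ hFP hfp hS2
  have hD : ∃ D : ℝ, ∀ k, k < n → ∀ t, Fills k (Rz (kt K h' t)) (Rz (kt K h' (t - D))) := by
    have : ∀ k : ℕ, ∃ D : ℝ, k < n → ∀ t, Fills k (Rz (kt K h' t)) (Rz (kt K h' (t - D))) := by
      intro k
      by_cases hk : k < n
      · obtain ⟨D, -, hD⟩ := hE k hk
        exact ⟨D, fun _ => hD⟩
      · exact ⟨0, fun h => absurd h hk⟩
    choose D hD using this
    refine ⟨∑ k ∈ Finset.range n, |D k|, fun k hk t => ?_⟩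
    have h1 : D k ≤ ∑ k ∈ Finset.range n, |D k| :=
      (le_abs_self _).trans
        (Finset.single_le_sum (f := fun k => |D k|) (fun i _ => abs_nonneg _)
          (Finset.mem_range.2 hk))
    exact fills_mono le_rfl (rz_mono (kt_mono K h' (by linarith))) (hD k hk t)
  obtain ⟨D, hD⟩ := hD
  refine ⟨D + C, fun t k hk => ?_⟩
  refine fills_mono (rz_mono (hsup t)) ?_ (hD k hk t)
  have := hsub (t - (D + C))
  rw [show t - (D + C) + C = t - D by ring] at this
  exact rz_mono this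

end Pool.Agent.Lib.MP_b1a3a4_al.MVS.TH.H45
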