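import Pool.Agent.Lib.MP_b1a3a4_al.MVS.TH.Iface

/-!
# Project MVS, part V: GEO (13.33)
-/

set_option linter.all false

namespace Pool.Agent.Lib.MP_b1a3a4_al.MVS.TH.H45

open MVS MVS.HO MVS.TH

open Classical in
/-- the vertex `v` as a point of the realization -/
noncomputable def dl {V : Type} (v : V) : V → ℝ := fun w => if w = v then 1 else 0

lemma dl_mem {V : Type} {K : Set (Finset V)} {v : V} (h : {v} ∈ K) : dl v ∈ Rz K := by
  classical
  refine ⟨fun w => ?_, {v}, h, fun w hw => ?_, ?_⟩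
  · simp only [dl]; split_ifs <;> norm_num
  · simp only [Finset.mem_singleton] at hw
    simp [dl, hw]
  · simp [dl]

section

variable {S V : Type} [Group S] [MulAction S V]

lemma tr_dl (s : S) (v : V) : tr s (dl v) = dl (s • v) := by
  funext w
  simp only [tr, dl]
  congr 1
  rw [inv_smul_eq_iff]

lemma tr_tr (s t : S) (x : V → ℝ) : tr s (tr t x) = tr (s * t) x := by
  funext v
  simp [tr, mul_smul]

lemma tr_one (x : V → ℝ) : tr (1 : S) x = x := by
  funext v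
  simp [tr]

lemma mem_trs (s : S) (σ : Finset V) (v : V) : v ∈ trs s σ ↔ s⁻¹ • v ∈ σ := by
  simp only [trs, Finset.mem_map, Function.Embedding.coeFn_mk]
  constructor
  · rintro ⟨w, hw, rfl⟩; simpa using hw
  · intro h; exact ⟨_, h, by simp⟩

lemma trs_trs (s t : S) (σ : Finset V) : trs s (trs t σ) = trs (s * t) σ := by
  ext v
  simp [mem_trs, mul_smul]

lemma trs_one (σ : Finset V) : trs (1 : S) σ = σ := by
  ext v
  simp [mem_trs]

lemma tr_mem {K : Set (Finset V)} (inv : ∀ s : S, ∀ σ ∈ K, trs s σ ∈ K) (s : S) {x : V → ℝ}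
    (hx : x ∈ Rz K) : tr s x ∈ Rz K := by
  obtain ⟨h0, σ, hσ, h1, h2⟩ := hx
  refine ⟨fun v => h0 _, trs s σ, inv s σ hσ, fun v hv => ?_, ?_⟩
  · rw [mem_trs] at hv
    exact h1 _ hv
  · rw [trs, Finset.sum_map]
    simpa [tr] using h2

end

lemma sum_eq_one {V : Type} {K : Set (Finset V)} {x : V → ℝ} (hx : x ∈ Rz K) {τ : Finset V}
    (hτ : ∀ v, v ∉ τ → x v = 0) : ∑ v ∈ τ, x v = 1 := by
  classical
  obtain ⟨h0, σ, hσ, h1, h2⟩ := hx
  have e1 : ∑ v ∈ τ ∪ σ, x v = ∑ v ∈ τ, x v :=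
    (Finset.sum_subset Finset.subset_union_left (fun v _ hv => hτ v hv)).symm
  have e2 : ∑ v ∈ τ ∪ σ, x v = ∑ v ∈ σ, x v :=
    (Finset.sum_subset Finset.subset_union_right (fun v _ hv => h1 v hv)).symm
  rw [← e1, e2, h2]

/-- the closed simplex is compact -/
lemma compact_simplex {V : Type} (τ : Finset V) :
    IsCompact {x : V → ℝ | (∀ v, 0 ≤ x v) ∧ (∀ v, v ∉ τ → x v = 0) ∧ ∑ v ∈ τ, x v = 1} := by
  have h1 : IsCompact (Set.univ.pi (fun _ : V => Set.Icc (0 : ℝ) 1)) :=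
    isCompact_univ_pi (fun _ => isCompact_Icc)
  refine h1.of_isClosed_subset ?_ ?_
  · have e : {x : V → ℝ | (∀ v, 0 ≤ x v) ∧ (∀ v, v ∉ τ → x v = 0) ∧ ∑ v ∈ τ, x v = 1} =
        (⋂ v, {x : V → ℝ | 0 ≤ x v}) ∩ ((⋂ v, ⋂ (_ : v ∉ τ), {x : V → ℝ | x v = 0}) ∩
          {x : V → ℝ | ∑ v ∈ τ, x v = 1}) := by
      ext x; simp
    rw [e]
    refine (isClosed_iInter (fun v => isClosed_le continuous_const (continuous_apply v))).inter
      ((isClosed_iInter (fun v => isClosed_iInter (fun _ =>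
        isClosed_eq (continuous_apply v) continuous_const))).inter ?_)
    exact isClosed_eq (continuous_finset_sum _ (fun v _ => continuous_apply v)) continuous_const
  · rintro x ⟨h0, h2, h3⟩ v -
    refine ⟨h0 v, ?_⟩
    by_cases hv : v ∈ τ
    · rw [← h3]
      exact Finset.single_le_sum (f := x) (fun w _ => h0 w) hv
    · rw [h2 v hv]; norm_num

theorem geo : GeoStatement := by
  intro S V _ _ χ n K h hK hV hconn hcont heq
  classical
  obtain ⟨F, hF, hcof⟩ := hK.cofin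
  /- the map `lam` -/
  let r : V → V := fun v => Quotient.out (Quotient.mk (MulAction.orbitRel S V) v)
  have hr1 : ∀ v, ∃ s : S, s • r v = v := by
    intro v
    have : (MulAction.orbitRel S V).r (r v) v := Quotient.exact (Quotient.out_eq _)
    have h2 : r v ∈ MulAction.orbit S v := this
    obtain ⟨s, hs⟩ := h2
    refine ⟨s⁻¹, ?_⟩
    rw [← hs]
    simp
  have hr2 : ∀ (s : S) v, r (s • v) = r v := by
    intro s v
    have : Quotient.mk (MulAction.orbitRel S V) (s • v) = Quotient.mk (MulAction.orbitRel S V) v :=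
      Quotient.sound (show s • v ∈ MulAction.orbit S v from ⟨s, rfl⟩)
    simp only [r, this]
  choose lam hlam using hr1
  have hfree : ∀ (s t : S) (v : V), s • v = t • v → s = t := by
    intro s t v hst
    have h1 : (t⁻¹ * s) • v = v := by rw [mul_smul, hst, inv_smul_smul]
    have h2 := hK.free _ _ h1
    rw [inv_mul_eq_one] at h2
    exact h2.symm
  have hlsmul : ∀ (s : S) v, lam (s • v) = s * lam v := by
    intro s v
    apply hfree _ _ (r v)
    rw [← hr2 s v, hlam (s • v), hr2 s v, mul_smul, hlam v]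
  /- the vertices in F -/
  let W : Set V := ⋃ τ ∈ F, (τ : Set V)
  have hW : W.Finite := hF.biUnion (fun τ _ => τ.finite_toSet)
  have hfib : {v | lam v = 1}.Finite := by
    refine (hW.image r).subset ?_
    intro v hv
    obtain ⟨s, τ, hτ, he⟩ := hcof _ (hK.vert v)
    have h1 : v ∈ trs s τ := by rw [← he]; simp
    rw [mem_trs] at h1
    refine ⟨s⁻¹ • v, ?_, ?_⟩
    · simp only [W, Set.mem_iUnion]
      exact ⟨τ, hτ, h1⟩
    · rw [hr2]
      have hv1 : lam v = 1 := hv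
      have := hlam v
      rw [hv1, one_smul] at this
      exact this
  let h' : V → ℝ := fun v => h (dl v)
  have hh' : ∀ (s : S) v, h' (s • v) = h' v + Multiplicative.toAdd (χ s) := by
    intro s v
    simp only [h']
    rw [← tr_dl, heq s _ (dl_mem (hK.vert v))]
  /- lower bounds on the simplices -/
  have hm : ∀ τ : Finset V, ∃ m : ℝ, τ ∈ K → ∀ x ∈ Rz K, (∀ v, v ∉ τ → x v = 0) → m ≤ h x := by
    intro τ
    by_cases hτ : τ ∈ K
    · have hsub : {x : V → ℝ | (∀ v, 0 ≤ x v) ∧ (∀ v, v ∉ τ → x v = 0) ∧ ∑ v ∈ τ, x v = 1} ⊆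
          Rz K := fun x hx => ⟨hx.1, τ, hτ, hx.2.1, hx.2.2⟩
      have h2 := ((compact_simplex τ).image_of_continuousOn (hcont.mono hsub)).bddBelow
      obtain ⟨m, hm⟩ := h2
      refine ⟨m, fun _ x hx hxτ => hm ⟨x, ⟨hx.1, hxτ, sum_eq_one hx hxτ⟩, rfl⟩⟩
    · exact ⟨0, fun h => absurd h hτ⟩
  choose m hm using hm
  have hC : ∃ C : ℝ, ∀ τ ∈ F, ∀ v ∈ τ, h' v - m τ ≤ C := by
    have hfin : (⋃ τ ∈ F, (fun v => h' v - m τ) '' (τ : Set V)).Finite :=
      hF.biUnion (fun τ _ => τ.finite_toSet.image _)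
    obtain ⟨C, hC⟩ := hfin.bddAbove
    refine ⟨C, fun τ hτ v hv => hC ?_⟩
    simp only [Set.mem_iUnion]
    exact ⟨τ, hτ, v, hv, rfl⟩
  obtain ⟨C, hC⟩ := hC
  refine ⟨h', lam, C, ?_, ?_, ?_⟩
  · refine ⟨⟨hlsmul, hfib, hV, hh'⟩, hK.vert, hK.nonempty, hK.down, hK.inv, ?_, hconn⟩
    refine ⟨(fun p : V × V => (lam p.1)⁻¹ * lam p.2) '' (W ×ˢ W), (hW.prod hW).image _, ?_⟩
    intro σ hσ v hv w hw
    obtain ⟨s, τ, hτ, rfl⟩ := hcof σ hσ
    rw [mem_trs] at hv hw
    refine ⟨(s⁻¹ • v, s⁻¹ • w), ⟨?_, ?_⟩, ?_⟩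
    · simp only [W, Set.mem_iUnion]; exact ⟨τ, hτ, hv⟩
    · simp only [W, Set.mem_iUnion]; exact ⟨τ, hτ, hw⟩
    · simp [hlsmul, mul_assoc]
  · intro t σ hσ
    refine ⟨hσ.1, fun v hv => hσ.2 _ (dl_mem (hK.vert v)) ?_⟩
    intro w hw
    have : w ≠ v := fun e => hw (e ▸ hv)
    simp [dl, this]
  · intro t σ hσ
    refine ⟨hσ.1, fun x hx hxσ => ?_⟩
    obtain ⟨s, τ, hτ, rfl⟩ := hcof σ hσ.1
    have hτK : τ ∈ K := by
      have := hK.inv s⁻¹ _ hσ.1
      rwa [trs_trs, inv_mul_cancel, trs_one] at this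
    have hx' : tr s⁻¹ x ∈ Rz K := tr_mem hK.inv s⁻¹ hx
    have h1 : m τ ≤ h (tr s⁻¹ x) := by
      refine hm τ hτK _ hx' (fun v hv => ?_)
      simp only [tr, inv_inv]
      apply hxσ
      rw [mem_trs, inv_smul_smul]
      exact hv
    have h2 : h x = h (tr s⁻¹ x) + Multiplicative.toAdd (χ s) := by
      rw [← heq s _ hx', tr_tr, mul_inv_cancel, tr_one]
    obtain ⟨v, hv⟩ := hK.nonempty τ hτK
    have h3 := hσ.2 (s • v) (by rw [mem_trs, inv_smul_smul]; exact hv)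
    rw [hh'] at h3
    have h4 := hC τ hτ v hv
    rw [h2]
    linarith

end Pool.Agent.Lib.MP_b1a3a4_al.MVS.TH.H45
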