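import Pool.Agent.Lib.MP_b1a3a4_al.MVS.TH.Iface

/-!
# Project MVS, part V: HUR (13.26)
-/

set_option linter.all false

namespace Pool.Agent.Lib.MP_b1a3a4_al.MVS.TH.H45

open MVS MVS.HO MVS.TH

lemma lin_zero {V P : Type} [AddCommGroup P] {q : ℕ} (φ : Chn V q →ₗ[ℤ] P)
    {Q : Lab V q → Prop} (hφ : ∀ e, Q e → φ (Finsupp.single e 1) = 0) {w : Chn V q}
    (hw : SuppIn Q w) : φ w = 0 := by
  classical
  have h1 : φ w = ∑ c ∈ w.support, w c • φ (Finsupp.single c 1) := by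
    conv_lhs => rw [← Finsupp.sum_single w, Finsupp.sum, map_sum]
    refine Finset.sum_congr rfl (fun c _ => ?_)
    rw [← map_smul, Finsupp.smul_single, smul_eq_mul, mul_one]
  rw [h1]
  refine Finset.sum_eq_zero (fun c hc => ?_)
  rw [hφ c (hw c hc), smul_zero]

lemma ev_of {x : unitInterval} (h : x = 0 ∨ x = 1) : ∃ ε, x = ev ε := by
  rcases h with h | h
  · exact ⟨false, h⟩
  · exact ⟨true, h⟩

lemma fi_of {q : ℕ} {x : Cu (q + 1)} {i : Fin (q + 1)} {ε : Bool} (h : x i = ev ε) :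
    x = fi i ε (rem i x) := by
  rw [fi, ← h, ins_rem]

/-- a grid point with an integral coordinate lies on the boundary of its small cube -/
lemma grid_bd {q m : ℕ} {p : Fin q → ℕ} (hp : ∀ i, p i < 2 ^ m) {u : Cu q} {j : Fin q} {l : ℕ}
    (h : (sc m p u j : ℝ) * 2 ^ m = l) : u j = 0 ∨ u j = 1 := by
  rw [sc_val m p u j (hp j)] at h
  have h2 : (0 : ℝ) < 2 ^ m := by positivity
  rw [div_mul_cancel₀ _ h2.ne'] at h
  have h0 := (u j).2.1
  have h1 := (u j).2.2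
  have h3 : (u j : ℝ) = ((l : ℤ) - (p j : ℤ) : ℤ) := by push_cast; linarith
  have h4 : (0 : ℤ) ≤ (l : ℤ) - (p j : ℤ) := by
    have : (0 : ℝ) ≤ (((l : ℤ) - (p j : ℤ) : ℤ) : ℝ) := h3 ▸ h0
    exact_mod_cast this
  have h5 : (l : ℤ) - (p j : ℤ) ≤ 1 := by
    have : (((l : ℤ) - (p j : ℤ) : ℤ) : ℝ) ≤ 1 := h3 ▸ h1
    exact_mod_cast this
  have h6 : (l : ℤ) - (p j : ℤ) = 0 ∨ (l : ℤ) - (p j : ℤ) = 1 := by omega
  rcases h6 with h6 | h6
  · left
    apply Subtype.ext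
    rw [h3, h6]
    simp
  · right
    apply Subtype.ext
    rw [h3, h6]
    simp

lemma bd_grid {q : ℕ} (m : ℕ) {x : Cu q} (hx : x ∈ Cube.boundary (Fin q)) :
    ∃ (i : Fin q) (j : ℕ), (x i : ℝ) * 2 ^ m = j := by
  obtain ⟨i, hi | hi⟩ := hx
  · exact ⟨i, 0, by simp [hi]⟩
  · exact ⟨i, 2 ^ m, by simp [hi]⟩

/-- maps on the grid realizing `γ` are `y` on the grid hyperplanes -/
lemma grid_base {V Z : Type} [TopologicalSpace Z] {k m : ℕ} {B : Set Z} {y : Z}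
    {C : ∀ q, Lab V q → Prop} {γ : ∀ q, Lab V q → Cu q → Z} (hγ : GamOK (k + 1) B y C γ)
    (hC : ∀ q c i ε, C (q + 1) c → C q (fc i ε c))
    {G : (Fin (k + 2) → ℕ) → V} {R : Cu (k + 2) → Z} (hG : BLab m G (C (k + 1)))
    (hR : BRlz m G (γ (k + 1)) R) (i : Fin (k + 2)) (ε : Bool) (x : Cu (k + 1))
    (hx : ∃ (j : Fin (k + 1)) (l : ℕ), (x j : ℝ) * 2 ^ m = l) : R (fi i ε x) = y := by
  obtain ⟨j, l, hl⟩ := hx
  obtain ⟨p, hp, u, rfl⟩ := sc_cover m x
  have h1 := hR i ε p hp u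
  simp only at h1
  rw [h1]
  obtain ⟨δ, hδ⟩ := ev_of (grid_bd hp hl)
  rw [fi_of hδ, hγ.face k (by omega) _ (hG i ε p hp) j δ]
  exact hγ.base k (by omega) _ (hC _ _ _ _ (hG i ε p hp)) _

lemma grid_good {V Z : Type} [TopologicalSpace Z] {k m : ℕ} {B : Set Z} {y : Z}
    {C : ∀ q, Lab V q → Prop} {γ : ∀ q, Lab V q → Cu q → Z} (hγ : GamOK (k + 1) B y C γ)
    (hC : ∀ q c i ε, C (q + 1) c → C q (fc i ε c))
    {G : (Fin (k + 2) → ℕ) → V} {R : Cu (k + 2) → Z} (hG : BLab m G (C (k + 1)))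
    (hR : BRlz m G (γ (k + 1)) R) (hRB : BdIn R B) (i : Fin (k + 2)) (ε : Bool) :
    Good B y (fun x => R (fi i ε x)) := by
  refine ⟨hRB.1.comp_continuous (continuous_fi i ε) (fun x => fi_mem_boundary i ε x),
    fun x => hRB.2 _ (fi_mem_boundary i ε x), fun x hx => ?_⟩
  exact grid_base hγ hC hG hR i ε x (bd_grid m hx)

/-- the deformed `(k+1)`-cubes -/
lemma gam_gd2 {V Z : Type} [TopologicalSpace Z] {k : ℕ} {B : Set Z} {y : Z}
    {C : ∀ q, Lab V q → Prop} {γ : ∀ q, Lab V q → Cu q → Z} (hγ : GamOK (k + 1) B y C γ)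
    (hC : ∀ q c i ε, C (q + 1) c → C q (fc i ε c)) (e : Lab V (k + 2)) (he : C (k + 2) e) :
    Gd2 B y (γ (k + 2) e) := by
  refine ⟨hγ.cont _ le_rfl e he, hγ.mem _ le_rfl e he, ?_⟩
  rintro x ⟨i, j, hij, hi, hj⟩
  obtain ⟨ε, hε⟩ := ev_of hi
  obtain ⟨δ, hδ⟩ := ev_of hj
  rcases Fin.eq_self_or_eq_succAbove i j with rfl | ⟨j', rfl⟩
  · exact absurd rfl hij
  have h1 : (rem i x) j' = ev δ := hδ
  rw [fi_of hε, hγ.face (k + 1) (by omega) e he, fi_of h1,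
    hγ.face k (by omega) _ (hC _ _ _ _ he)]
  exact hγ.base k (by omega) _ (hC _ _ _ _ (hC _ _ _ _ he)) _

theorem hur (pre : PreStatement) (cubh : CubhStatement) (tele : TeleStatement)
    (clS : ClStatement) (hat : HatStatement) (grid : GridStatement) (hatc : HatcStatement) :
    HurStatement := by
  intro S V Z _ _ _ χ n up h lam hA hχ hFP k hk2 hkn hE
  obtain ⟨r, rfl⟩ : ∃ r, k = r + 2 := ⟨k - 2, by omega⟩
  obtain ⟨B₀, D₀, hB₀, hD₀, hpre⟩ := pre S V Z χ n (r + 2) up h lam hA (by omega) hkn hE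
  obtain ⟨B', D', hB', hD', hcub⟩ := cubh S V χ h lam hA.labs n hχ hFP (r + 1) (by omega) B₀ hB₀
  obtain ⟨D₂, hD₂, hmain⟩ := hpre (B₀ ∪ B') (D₀ + D') (hB₀.union hB') Set.subset_union_left
    (by linarith)
  refine ⟨D₂, hD₂, fun t => (fills_iff _ _ _).2 (fun f hf => ?_)⟩
  obtain ⟨m, G, y, γ, R, hlab, hy, hγ, hR, hRr, hext⟩ := hmain t f hf
  apply hext
  obtain ⟨-, P, _, c, hc⟩ := clS Z (up (t - D₂)) y hy r
  set C : ∀ q, Lab V q → Prop :=
    fun q c => Bd lam (B₀ ∪ B') c ∧ Up h (t - (D₀ + D')) c with hCdef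
  have hCf : ∀ q c i ε, C (q + 1) c → C q (fc i ε c) :=
    fun q c i ε hc => ⟨bd_fc hc.1 i ε, up_fc hc.2 i ε⟩
  have hC0 : ∀ q (c : Lab V q), Bd lam B₀ c ∧ Up h (t - D₀) c → C q c :=
    fun q c hc => ⟨bd_mono Set.subset_union_left hc.1, up_mono (by linarith) hc.2⟩
  have hC1 : ∀ q (c : Lab V q), Bd lam B' c ∧ Up h (t - D₀ - D') c → C q c :=
    fun q c hc => ⟨bd_mono Set.subset_union_right hc.1, up_mono (by linarith) hc.2⟩
  have hG : BLab m G (C (r + 2)) := fun i ε p hp => hC0 _ _ (hlab i ε p hp)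
  have hgood := grid_good hγ hCf hG hRr hR
  refine hatc.1 Z (up (t - D₂)) y r P c hc R hR.1 hgood ?_
  /- the linear extension of the classes -/
  let ψ : Chn V (r + 2) →ₗ[ℤ] P :=
    Finsupp.linearCombination ℤ (fun e : Lab V (r + 2) => c (γ (r + 2) e))
  have hψ1 : ∀ e, ψ (Finsupp.single e 1) = c (γ (r + 2) e) := by
    intro e; simp [ψ]
  have hψd : ∀ e : Lab V (r + 3), C (r + 3) e → ψ (dK (Finsupp.single e 1)) = 0 := by
    intro e he
    have h1 : ψ (dK (Finsupp.single e 1)) = Sg c (γ (r + 3) e) := by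
      rw [dK_single, map_sum, Sg]
      refine Finset.sum_congr rfl (fun i _ => ?_)
      rw [map_smul, map_sub, hψ1, hψ1]
      have h2 : ∀ ε, (fun x => γ (r + 3) e (fi i ε x)) = γ (r + 2) (fc i ε e) := by
        intro ε
        funext x
        exact hγ.face (r + 2) (by omega) e he i ε x
      rw [h2, h2]
    rw [h1]
    exact hat Z _ y r P c hc _ (gam_gd2 hγ hCf e he)
  have hψg : ∀ e : Lab V (r + 2), C (r + 2) e ∧ IsDeg e → ψ (Finsupp.single e 1) = 0 := by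
    rintro e ⟨he, i, c', rfl⟩
    rw [hψ1]
    have hc' : C (r + 1) c' := by
      have := hCf _ _ i false he
      rwa [fc_dg] at this
    have h2 : γ (r + 2) (dg i c') = fun _ => y := by
      funext x
      rw [hγ.deg (r + 1) (by omega) c' hc' i x]
      exact hγ.base (r + 1) (by omega) c' hc' _
    rw [h2, hc.const]
  /- the chain of the grid -/
  have hz1 : SuppIn (fun c => Bd lam B₀ c ∧ Up h (t - D₀) c) (bch (2 ^ m) G) := by
    refine SuppIn.sum _ (fun i _ => SuppIn.smul (SuppIn.sub ?_ ?_) _)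
    · exact SuppIn.sum _ (fun p _ => suppIn_single (hlab i true _ (fun j => (p j).2)) _)
    · exact SuppIn.sum _ (fun p _ => suppIn_single (hlab i false _ (fun j => (p j).2)) _)
  have hz2 : dK (bch (2 ^ m) G) = 0 := tele.2 V (r + 1) (2 ^ m) G
  obtain ⟨w, hw1, hw2⟩ := hcub (t - D₀) (bch (2 ^ m) G) hz1 (by rw [hz2]; exact suppIn_zero _)
  have hw3 : ψ (dK w) = 0 :=
    lin_zero (ψ ∘ₗ dK) (Q := C (r + 3)) (fun e he => hψd e he) (fun e he => hC1 _ _ (hw1 e he))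
  have hw4 : SuppIn (C (r + 2)) (dK w) := by
    refine SuppIn.map (P := C (r + 3)) (fun e he => hC1 _ _ (hw1 e he)) dK (fun e he => ?_)
    rw [dK_single]
    exact SuppIn.sum _ (fun i _ => SuppIn.smul (SuppIn.sub
      (suppIn_single (hCf _ _ _ _ he) _) (suppIn_single (hCf _ _ _ _ he) _)) _)
  have hw5 : ψ (bch (2 ^ m) G - dK w) = 0 := by
    refine lin_zero ψ (Q := fun e => C (r + 2) e ∧ IsDeg e) hψg (fun e he => ⟨?_, hw2 e he⟩)
    exact (SuppIn.sub (P := C (r + 2)) (fun e he => hC0 _ _ (hz1 e he)) hw4) e he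
  have hz3 : ψ (bch (2 ^ m) G) = 0 := by
    rw [map_sub, hw3, sub_zero] at hw5
    exact hw5
  rw [← hz3, bch, map_sum, Sg]
  refine Finset.sum_congr rfl (fun i _ => ?_)
  rw [map_smul, map_sub, map_sum, map_sum]
  have key : ∀ ε, c (fun x => R (fi i ε x)) =
      ∑ p : Fin (r + 2) → Fin (2 ^ m),
        ψ (Finsupp.single (lab (gf i ε (2 ^ m) G) (fun j => (p j : ℕ))) 1) := by
    intro ε
    rw [grid Z _ y r P c hc (fun x => R (fi i ε x)) m (hgood i ε)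
      (fun x hx => grid_base hγ hCf hG hRr i ε x hx)]
    refine Finset.sum_congr rfl (fun p _ => ?_)
    rw [hψ1]
    congr 1
    funext x
    exact hRr i ε _ (fun j => (p j).2) x
  rw [key true, key false]

end Pool.Agent.Lib.MP_b1a3a4_al.MVS.TH.H45
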