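import Pool.Agent.Lib.MP_b1a3a4_al.MVS.TH.Iface

/-!
# Project MVS, part V: MAIN (13.27)
-/

set_option linter.all false

namespace Pool.Agent.Lib.MP_b1a3a4_al.MVS.TH.H45

open MVS MVS.HO MVS.TH

theorem mainth (ec0 : Ec0Statement) (ec1 : Ec1Statement) (hur : HurStatement) :
    MainStatement := by
  intro S V Z _ _ _ χ n up h lam hA hχ hFP hfp hS2
  obtain ⟨r, φ, hφ, R, hR, hker⟩ := hfp.out
  have hker' : φ.ker = Subgroup.normalClosure R := hker.symm
  intro k
  induction k using Nat.strong_induction_on with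
  | _ k ih =>
    intro hk
    rcases Nat.lt_or_ge k 2 with h2 | h2
    · have h0 := ec0 S V Z χ n up h lam hA (by omega) r φ R hφ hR hker' hS2
      interval_cases k
      · exact h0
      · exact ec1 S V Z χ n up h lam hA (by omega) r φ R hφ hR hker' hS2 h0
    · exact hur S V Z χ n up h lam hA hχ hFP k h2 hk (fun j hj => ih j hj (by omega))

end Pool.Agent.Lib.MP_b1a3a4_al.MVS.TH.H45
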