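import Pool.Agent.Lib.MP_b1a3a4_al.MVS.TH.Iface

/-!
# Project MVS, part V: PRE (13.23)
-/

set_option linter.all false

namespace Pool.Agent.Lib.MP_b1a3a4_al.MVS.TH.H45

open MVS MVS.HO MVS.TH

/-- the reversed homotopy -/
def revh {Z : Type} [TopologicalSpace Z] (F : C(unitInterval, Z)) : C(unitInterval, Z) :=
  F.comp ⟨unitInterval.symm, unitInterval.continuous_symm⟩

lemma continuous_revh {Z : Type} [TopologicalSpace Z] :
    Continuous (revh : C(unitInterval, Z) → C(unitInterval, Z)) :=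
  ContinuousMap.continuous_precomp _

/-- Extensions are transported along homotopies of maps on the boundary. -/
lemma extIn_of_homotopy (retr : RetrStatement) {Z : Type} [TopologicalSpace Z] {q : ℕ}
    {B : Set Z} {f f' : Cu q → Z} (H : Cu q → C(unitInterval, Z))
    (hH : ContinuousOn H (Cube.boundary (Fin q)))
    (h : ∀ x ∈ Cube.boundary (Fin q), (∀ s, H x s ∈ B) ∧ H x 0 = f x ∧ H x 1 = f' x)
    (hf : ExtIn f B) : ExtIn f' B := by
  obtain ⟨g, hg1, hg2, hg3⟩ := hf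
  obtain ⟨F, hF1, hF2, hF3, hF4⟩ := retr Z q B g H hg1 hg2 hH
    (fun x hx => ⟨(h x hx).1, by rw [(h x hx).2.1, hg3 x hx]⟩)
  refine ⟨fun x => F x 1, (continuous_eval_const 1).comp hF1, fun x => hF2 x 1,
    fun x hx => ?_⟩
  show F x 1 = f' x
  rw [hF4 x hx, (h x hx).2.2]

theorem pre (retr : RetrStatement) (real : RealStatement) (defo : DefoStatement) :
    PreStatement := by
  intro S V Z _ _ _ χ n k up h lam hA hk1 hkn hE
  obtain ⟨B₀, D₀, hB₀, hD₀, happr⟩ := hA.appr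
  refine ⟨B₀, D₀, hB₀, hD₀, fun B₁ D₁ hB₁ hBB hDD => ?_⟩
  obtain ⟨β, D₁', hD₁', hβ, hap⟩ := happr B₁ hB₁ hBB
  obtain ⟨D₂', hD₂', hdef⟩ := defo S V Z n k up h lam B₁ D₁' β (hD₀.trans hD₁') hk1 hkn
    hA.anti hβ hE
  refine ⟨D₁ + D₂', by linarith, fun t f hf => ?_⟩
  obtain ⟨m, G, hG, hGext⟩ := hap t k (by omega) f hf
  have hx₀ : (fun _ => 0 : Cu (k + 1)) ∈ Cube.boundary (Fin (k + 1)) := ⟨0, Or.inl rfl⟩
  have hy := hf.2 _ hx₀
  obtain ⟨P, hP1, hP2, hP3⟩ := hdef (t - D₁) (f (fun _ => 0)) (hA.anti _ _ (by linarith) hy)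
  have et : t - D₁ - D₂' = t - (D₁ + D₂') := by ring
  let C : ∀ q, Lab V q → Prop := fun q c => Bd lam B₁ c ∧ Up h (t - D₁) c
  have hG' : BLab m G (C k) := fun i ε p hp =>
    ⟨bd_mono hBB (hG i ε p hp).1, up_mono (by linarith) (hG i ε p hp).2⟩
  obtain ⟨F, hF1, hF2⟩ := real V C(unitInterval, Z) C P k
    (fun q c i ε hc => ⟨bd_fc hc.1 i ε, up_fc hc.2 i ε⟩)
    (fun c hc => (hP1 k (by omega) c hc.1 hc.2).1)
    (fun q hq c hc i ε x => hP2 q (by omega) c hc.1 hc.2 i ε x) m G hG'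
  have hval : ∀ x ∈ Cube.boundary (Fin (k + 1)), ∀ s, F x s ∈ up (t - (D₁ + D₂')) := by
    intro x hx s
    obtain ⟨i, ε, z, rfl⟩ := (mem_boundary_iff x).1 hx
    obtain ⟨p, hp, u, rfl⟩ := sc_cover m z
    have h1 := hF2 i ε p hp u
    simp only at h1
    rw [h1, ← et]
    exact (hP1 k (by omega) _ (hG' i ε p hp).1 (hG' i ε p hp).2).2.1 u s
  refine ⟨m, G, f (fun _ => 0), fun q c x => P q c x 1, fun x => F x 1, hG,
    hA.anti _ _ (by linarith) hy, ⟨?_, ?_, ?_, ?_, ?_⟩, ⟨?_, ?_⟩, ?_, ?_⟩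
  · intro q hq c hc
    exact (continuous_eval_const 1).comp (hP1 q hq c hc.1 hc.2).1
  · intro q hq c hc x
    rw [← et]
    exact (hP1 q hq c hc.1 hc.2).2.1 x 1
  · intro q hq c hc x
    exact (hP1 q (by omega) c hc.1 hc.2).2.2.2 hq x
  · intro q hq c hc i ε x
    show P (q + 1) c (fi i ε x) 1 = P q (fc i ε c) x 1
    rw [hP2 q hq c hc.1 hc.2 i ε x]
  · intro q hq c hc i x
    show P (q + 1) (dg i c) x 1 = P q c (rem i x) 1
    rw [hP3 q hq c hc.1 hc.2 i x]
  · exact (continuous_eval_const 1).comp_continuousOn hF1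
  · exact fun x hx => hval x hx 1
  · intro i ε p hp x
    have h1 := hF2 i ε p hp x
    simp only at h1 ⊢
    rw [h1]
  · intro hext
    apply hGext (D₁ + D₂') (by linarith) (fun x => F x 0)
    · exact (continuous_eval_const 0).comp_continuousOn hF1
    · intro i ε p hp x
      have h1 := hF2 i ε p hp x
      simp only at h1 ⊢
      rw [h1]
      exact (hP1 k (by omega) _ (hG' i ε p hp).1 (hG' i ε p hp).2).2.2.1 x
    · refine extIn_of_homotopy retr (fun x => revh (F x)) (continuous_revh.comp_continuousOn hF1)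
        (fun x hx => ⟨fun s => hval x hx _, ?_, ?_⟩) hext
      · simp [revh]
      · simp [revh]

end Pool.Agent.Lib.MP_b1a3a4_al.MVS.TH.H45
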